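import Pool.Agent.H85.LSP.Def2

/-!
# LSQ, row FRM: `Vo Q` is a frame
-/

set_option autoImplicit false

namespace Pool.LSP

open Polynomial Filter Topology Finset
open scoped ComplexConjugate

theorem t_frm : FRMStmt := by
  classical
  intro Q β hβ
  have hout : ∀ α ∈ Out Q, 1 < ‖α‖ := fun α hα => by
    unfold Out at hα
    exact (Finset.mem_filter.1 hα).2
  have hne : (Out Q).Nonempty := ⟨β, hβ⟩
  obtain ⟨l, hl⟩ : ∃ l : ℝ, l = (Out Q).inf' hne (fun α => ‖α‖) := ⟨_, rfl⟩
  have hle : ∀ α ∈ Out Q, l ≤ ‖α‖ := fun α hα => by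
    rw [hl]
    exact Finset.inf'_le _ hα
  have hl1 : 1 < l := by
    rw [hl, Finset.lt_inf'_iff]
    exact hout
  have hl0 : 0 < l := by linarith
  have hmem : ∀ α ∈ Out Q, ∀ z : ℂ, (fun n : ℤ => (z * α ^ n).re) ∈ Vo Q := fun α hα z =>
    Submodule.subset_span ⟨α, hα, z, rfl⟩
  refine ⟨l, hl1, hle β hβ, ?_, ?_, hmem β hβ, ?_⟩
  · obtain ⟨T, hT⟩ : ∃ T : Set (ℤ → ℝ), T =
        (((Out Q).image fun α => fun n : ℤ => (α ^ n).re) ∪
          ((Out Q).image fun α => fun n : ℤ => (Complex.I * α ^ n).re) : Finset (ℤ → ℝ)) :=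
      ⟨_, rfl⟩
    have hfin : T.Finite := by
      rw [hT]
      exact Finset.finite_toSet _
    have h1 : FiniteDimensional ℝ (Submodule.span ℝ T) := FiniteDimensional.span_of_finite ℝ hfin
    refine Submodule.finiteDimensional_of_le (S₂ := Submodule.span ℝ T) ?_
    unfold Vo
    rw [Submodule.span_le]
    rintro x ⟨α, hα, z, rfl⟩
    have e1 : (fun n : ℤ => (z * α ^ n).re) = z.re • (fun n : ℤ => (α ^ n).re) +
        z.im • (fun n : ℤ => (Complex.I * α ^ n).re) := by
      funext n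
      simp only [Pi.add_apply, Pi.smul_apply, smul_eq_mul, Complex.mul_re, Complex.I_re,
        Complex.I_im]
      ring
    rw [e1]
    refine Submodule.add_mem _ (Submodule.smul_mem _ _ (Submodule.subset_span ?_))
      (Submodule.smul_mem _ _ (Submodule.subset_span ?_))
    · rw [hT, Finset.coe_union]
      left
      rw [Finset.coe_image]
      exact ⟨α, hα, rfl⟩
    · rw [hT, Finset.coe_union]
      right
      rw [Finset.coe_image]
      exact ⟨α, hα, rfl⟩
  · intro g hg t
    have h1 : Vo Q ≤ (Vo Q).comap (LinearMap.funLeft ℝ ℝ (fun n : ℤ => n + t)) := by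
      conv_lhs => unfold Vo
      rw [Submodule.span_le]
      rintro x ⟨α, hα, z, rfl⟩
      have hα0 : α ≠ 0 := by
        intro h
        have := hout α hα
        rw [h, norm_zero] at this
        linarith
      show LinearMap.funLeft ℝ ℝ (fun n : ℤ => n + t) (fun n : ℤ => (z * α ^ n).re) ∈ Vo Q
      have e1 : LinearMap.funLeft ℝ ℝ (fun n : ℤ => n + t) (fun n : ℤ => (z * α ^ n).re) =
          fun n : ℤ => ((z * α ^ t) * α ^ n).re := by
        funext n
        rw [LinearMap.funLeft_apply, zpow_add₀ hα0]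
        congr 1
        ring
      rw [e1]
      exact hmem α hα _
    exact h1 hg
  · intro g hg
    unfold Vo at hg
    refine Submodule.span_induction (p := fun g _ => ∃ C : ℝ, 0 ≤ C ∧ Bk l C g) ?_ ?_ ?_ ?_ hg
    · rintro x ⟨α, hα, z, rfl⟩
      refine ⟨‖z‖, norm_nonneg z, fun m => ?_⟩
      refine (Complex.abs_re_le_norm _).trans ?_
      rw [norm_mul, norm_zpow]
      refine mul_le_mul_of_nonneg_left ?_ (norm_nonneg z)
      rw [zpow_neg, zpow_neg, zpow_natCast, zpow_natCast]
      exact inv_anti₀ (by positivity) (pow_le_pow_left₀ hl0.le (hle α hα) m)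
    · refine ⟨0, le_rfl, fun m => ?_⟩
      simp
    · rintro x y - - ⟨C, hC, hx⟩ ⟨C', hC', hy⟩
      refine ⟨C + C', add_nonneg hC hC', fun m => ?_⟩
      rw [add_mul]
      exact (abs_add_le _ _).trans (add_le_add (hx m) (hy m))
    · rintro a x - ⟨C, hC, hx⟩
      refine ⟨|a| * C, by positivity, fun m => ?_⟩
      rw [Pi.smul_apply, smul_eq_mul, abs_mul, mul_assoc]
      exact mul_le_mul_of_nonneg_left (hx m) (abs_nonneg a)

end Pool.LSP
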