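import Pool.Agent.H85.LSP.Def2

/-!
# LSQ, row JMA: levels from a supply of the first kind
-/

set_option autoImplicit false

namespace Pool.LSP

open Polynomial Filter Topology Finset
open scoped ComplexConjugate

/-- Two shifts of a point near `1/2` modulo one. -/
theorem nr_le_hd (x y : ℝ) : nr x ≤ hd y + hd (y + x) := by
  obtain ⟨p, hp⟩ := exists_half y
  obtain ⟨q, hq⟩ := exists_half (y + x)
  have h1 := nr_le_int x (q - p)
  rw [hp, hq]
  refine h1.trans ?_
  have e : x - ((q - p : ℤ) : ℝ) = -(y - (p + 1 / 2)) + (y + x - (q + 1 / 2)) := by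
    push_cast
    ring
  rw [e]
  refine (abs_add_le _ _).trans ?_
  rw [abs_neg]

theorem t_jma : JMAStmt := by
  intro V β l s₀ hF hs hSpa
  have hρ1 : 1 < ‖β‖ := lt_of_lt_of_le hF.hl hF.hlb
  have hρ0 : 0 < ‖β‖ := by linarith
  refine ⟨2, s₀ / 4, by linarith, fun ε hε => ⟨s₀ / 4, 0, fun n => n - 1, fun _ => s₀ / 4,
    by linarith, fun _ _ => le_rfl, fun _ _ _ => le_rfl, fun i L => ?_⟩⟩
  obtain ⟨Z, hZ⟩ : ∃ Z : ℝ, Z = ‖β‖ ^ (i + 1) := ⟨_, rfl⟩
  have hZ1 : 1 ≤ Z := by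
    rw [hZ]
    exact one_le_pow₀ hρ1.le
  have hp2 : (0 : ℝ) < (1 / 2) ^ i := by positivity
  have hp21 : ((1 : ℝ) / 2) ^ i ≤ 1 := pow_le_one₀ (by norm_num) (by norm_num)
  obtain ⟨δ, hδ⟩ : ∃ δ : ℝ, δ = min (ε * (1 / 2) ^ i / 2) (s₀ / 32 * (1 / 2) ^ i / Z) := ⟨_, rfl⟩
  have hδ0 : 0 < δ := by
    rw [hδ]
    exact lt_min (by positivity) (by positivity)
  have d1 : 2 * δ ≤ ε * (1 / 2) ^ i := by
    have := min_le_left (ε * (1 / 2) ^ i / 2) (s₀ / 32 * (1 / 2) ^ i / Z)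
    rw [← hδ] at this
    linarith
  have d2 : δ * Z ≤ s₀ / 32 * (1 / 2) ^ i := by
    have := min_le_right (ε * (1 / 2) ^ i / 2) (s₀ / 32 * (1 / 2) ^ i / Z)
    rw [← hδ, le_div_iff₀ (by linarith)] at this
    exact this
  have d3 : δ ≤ δ * Z := by nlinarith
  obtain ⟨g, hgV, hgs, hg0⟩ := hSpa δ (L + i + 1) hδ0
  obtain ⟨g', hg'⟩ : ∃ g' : ℤ → ℝ, g' = fun n => g (n + (-((i : ℤ) + 1))) := ⟨_, rfl⟩
  have hg'V : g' ∈ V := by
    rw [hg']
    exact hF.sh g hgV _
  have hsm : ∀ n : ℤ, -(L : ℤ) ≤ n → n < (i : ℤ) + 1 → nr (g' n) ≤ δ := by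
    intro n h1 h2
    rw [hg']
    refine hgs _ ?_ ?_
    · push_cast
      linarith
    · linarith
  obtain ⟨w, hw⟩ : ∃ w : ℝ, w = g' 0 - round (g' 0) := ⟨_, rfl⟩
  have hwδ : |w| ≤ δ := by
    have := hsm 0 (by simp) (by positivity)
    unfold nr at this
    rw [hw]
    exact this
  obtain ⟨q, hq⟩ : ∃ q : ℤ → ℝ, q = fun n => (((-w : ℝ) : ℂ) * β ^ n).re := ⟨_, rfl⟩
  have hqV : q ∈ V := by
    rw [hq]
    exact hF.dir _
  have hqb : ∀ n : ℤ, n ≤ (i : ℤ) + 1 → |q n| ≤ δ * Z := by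
    intro n hn
    rw [hq]
    refine (Complex.abs_re_le_norm _).trans ?_
    rw [norm_mul, norm_zpow, Complex.norm_real, Real.norm_eq_abs, abs_neg]
    refine mul_le_mul hwδ ?_ (by positivity) hδ0.le
    rw [hZ, ← zpow_natCast]
    refine zpow_le_zpow_right₀ hρ1.le ?_
    push_cast
    exact hn
  have hqn : ∀ n : ℤ, n ≤ 0 → |q n| ≤ δ := by
    intro n hn
    rw [hq]
    refine (Complex.abs_re_le_norm _).trans ?_
    rw [norm_mul, norm_zpow, Complex.norm_real, Real.norm_eq_abs, abs_neg]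
    calc |w| * ‖β‖ ^ n ≤ δ * 1 := by
          refine mul_le_mul hwδ ?_ (by positivity) hδ0.le
          calc ‖β‖ ^ n ≤ ‖β‖ ^ (0 : ℤ) := zpow_le_zpow_right₀ hρ1.le hn
            _ = 1 := zpow_zero _
      _ = δ := mul_one _
  obtain ⟨f, hf⟩ : ∃ f : ℤ → ℝ, f = g' + q := ⟨_, rfl⟩
  have hfe : ∀ n, f n = g' n + q n := fun n => by rw [hf]; rfl
  have hfV : f ∈ V := by
    rw [hf]
    exact V.add_mem hg'V hqV
  have hnf : ∀ n, nr (f n) ≤ nr (g' n) + |q n| := by
    intro n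
    have h1 := nr_le_add (f n) (g' n)
    have e : f n - g' n = q n := by rw [hfe]; ring
    rwa [e] at h1
  refine ⟨fun k => if k = 0 then 0 else f, ?_, ?_⟩
  · intro k _
    dsimp only
    have hz : nr 0 = 0 := by
      unfold nr
      simp
    split_ifs with hk
    · refine ⟨V.zero_mem, ⟨0, by simp⟩, fun n _ _ => ?_, fun n _ _ => ?_⟩
      · rw [Pi.zero_apply, hz]
        positivity
      · rw [Pi.zero_apply, hz]
        positivity
    · refine ⟨hfV, ⟨round (g' 0), ?_⟩, fun n h1 h2 => ?_, fun n h1 h2 => ?_⟩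
      · rw [hfe]
        have e : q 0 = -w := by
          rw [hq]
          simp
        rw [e, hw]
        ring
      · refine (hnf n).trans ?_
        have a1 := hsm n h1 (by linarith [(Nat.cast_nonneg i : (0 : ℤ) ≤ i)])
        have a2 := hqn n h2.le
        linarith
      · refine (hnf n).trans ?_
        have hni : (n : ℤ) < (i : ℤ) + 1 := by
          have : n < i + 1 := by omega
          exact_mod_cast this
        have a1 := hsm n (by linarith [(Nat.cast_nonneg L : (0 : ℤ) ≤ L),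
          (Nat.cast_nonneg n : (0 : ℤ) ≤ n)]) hni
        have a2 := hqb n hni.le
        have a3 : ((1 : ℝ) / 2) ^ i ≤ (1 / 2) ^ (i - (n - 1)) :=
          pow_le_pow_of_le_one (by norm_num) (by norm_num) (Nat.sub_le _ _)
        have a4 : s₀ / 16 * (1 / 2) ^ i ≤ s₀ / 4 / 4 * (1 / 2) ^ (i - (n - 1)) := by
          have : s₀ / 4 / 4 = s₀ / 16 := by ring
          rw [this]
          exact mul_le_mul_of_nonneg_left a3 (by linarith)
        linarith
  · intro φ
    have hi1 : s₀ / 2 ≤ nr (f ((i + 1 : ℕ) : ℤ)) := by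
      have h1 := nr_le_add (g' ((i + 1 : ℕ) : ℤ)) (f ((i + 1 : ℕ) : ℤ))
      have e : g' ((i + 1 : ℕ) : ℤ) - f ((i + 1 : ℕ) : ℤ) = -q ((i + 1 : ℕ) : ℤ) := by
        rw [hfe]
        ring
      rw [e, abs_neg] at h1
      have e2 : g' ((i + 1 : ℕ) : ℤ) = g 0 := by
        rw [hg']
        dsimp only
        congr 1
        push_cast
        ring
      rw [e2] at h1
      have h2 := hqb ((i + 1 : ℕ) : ℤ) (by push_cast; exact le_rfl)
      have h3 : s₀ / 32 * (1 / 2) ^ i ≤ s₀ / 32 * 1 :=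
        mul_le_mul_of_nonneg_left hp21 (by linarith)
      linarith
    by_cases h0 : s₀ / 4 ≤ hd (φ (i + 1))
    · refine ⟨0, by norm_num, fun n h1 h2 => ?_⟩
      have hn : n = i + 1 := by
        have h4 : n - 1 = i := h2
        omega
      rw [hn]
      simpa using h0
    · refine ⟨1, by norm_num, fun n h1 h2 => ?_⟩
      have hn : n = i + 1 := by
        have h4 : n - 1 = i := h2
        omega
      dsimp only
      rw [hn, if_neg one_ne_zero]
      have h3 := nr_le_hd (f ((i + 1 : ℕ) : ℤ)) (φ (i + 1))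
      push Not at h0
      linarith

end Pool.LSP
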