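import Pool.Agent.H85.LSP.Def2
import Pool.Agent.H17.LSP.MEM

/-!
# LSQ, row MVO: the elements of `Vo Q` are sequences of the problem
-/

set_option autoImplicit false

namespace Pool.LSP

open Polynomial Filter Topology Finset
open scoped ComplexConjugate

open Mem in
theorem t_mvo : MVOStmt := by
  intro P Q k hP hQ ξ hξ
  unfold Vo at hξ
  refine Submodule.span_induction (p := fun ξ _ => ∃ g : ℂ → ℂ[X], Xi P k g ∧
    ∀ n : ℕ, xs P g n = ξ n) ?_ ?_ ?_ ?_ hξ
  · rintro x ⟨α, hα, z, rfl⟩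
    obtain ⟨g, hg, hgx⟩ := (t_mem P k).1 α (out_sub hP hQ hα) (C z) (by simp)
    refine ⟨g, hg, fun n => ?_⟩
    rw [hgx, eval_C]
    simp only [zpow_natCast]
  · refine ⟨fun _ => 0, fun α _ => ⟨by simp, by simp⟩, fun n => ?_⟩
    unfold xs
    simp
  · rintro x y - - ⟨g, hg, hgx⟩ ⟨g', hg', hgx'⟩
    obtain ⟨h1, h2⟩ := (t_mem P k).2 g g' hg hg'
    refine ⟨_, h1, fun n => ?_⟩
    rw [h2, hgx, hgx']
    rfl
  · rintro a x - ⟨g, hg, hgx⟩
    refine ⟨fun α => C (a : ℂ) * g α, fun α hα => ⟨?_, ?_⟩, fun n => ?_⟩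
    · exact (natDegree_C_mul_le _ _).trans (hg α hα).1
    · dsimp only
      rw [(hg α hα).2, Polynomial.map_mul, Polynomial.map_C, Complex.conj_ofReal]
    · rw [show (a • x) (n : ℤ) = a * x n from rfl, ← hgx]
      unfold xs
      rw [← Complex.re_ofReal_mul, Finset.mul_sum]
      congr 1
      refine Finset.sum_congr rfl fun α _ => ?_
      rw [eval_mul, eval_C]
      ring

end Pool.LSP
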